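import Pool.Agent.NE.Stmts

/-!
# NE, YSP: the values of the nodes of the time `n` in terms of the nodes of the stage `T`
-/

set_option autoImplicit false

open Finset Filter Topology

noncomputable section

namespace Pool.Agent.NE.H31

/-- YSP -/
theorem ysp (hanc : AncStmt) (htrf : TrfStmt) (hsco : ScoStmt) : YspStmt := by
  intro X Z _ _ _ _ Ψ N p s σ θ L Y hT hY n T a hn hnT
  have hσ := (htrf N p s σ θ hT).1
  obtain ⟨-, hA, -, -⟩ := hanc σ (nn N T) (fun i h1 _ => hσ i h1)
  have key : ∀ T', T ≤ T' → ∑ i ∈ range n, a i • S N σ θ L n T' i =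
      ∑ j ∈ range (nn N T), sp N σ θ n T a j • S N σ θ L (nn N T) T' j := by
    intro T' hT'
    have hmaps : ∀ j ∈ range (nn N T), anc σ n j ∈ range n := fun j hj =>
      mem_range.2 (hA n j hn (mem_range.1 hj)).1
    rw [← Finset.sum_fiberwise_of_maps_to hmaps]
    refine Finset.sum_congr rfl fun i hi => ?_
    rw [hsco N p s σ θ hT Z L n T T' i hn hnT hT' (mem_range.1 hi), smul_sum]
    refine Finset.sum_congr rfl fun k hk => ?_
    rw [mem_filter] at hk
    rw [smul_smul]
    simp only [sp, hk.2]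
    rw [mul_comm]
  have h1 : Tendsto (fun T' => ∑ i ∈ range n, a i • S N σ θ L n T' i) atTop
      (𝓝 (∑ i ∈ range n, a i • Ψ (Y n i))) :=
    tendsto_finset_sum _ fun i hi => (hY n i (mem_range.1 hi)).const_smul (a i)
  have h2 : Tendsto (fun T' => ∑ j ∈ range (nn N T),
      sp N σ θ n T a j • S N σ θ L (nn N T) T' j) atTop
      (𝓝 (∑ j ∈ range (nn N T), sp N σ θ n T a j • Ψ (Y (nn N T) j))) :=
    tendsto_finset_sum _ fun j hj =>
      (hY (nn N T) j (mem_range.1 hj)).const_smul (sp N σ θ n T a j)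
  have h3 : (fun T' => ∑ i ∈ range n, a i • S N σ θ L n T' i) =ᶠ[atTop]
      fun T' => ∑ j ∈ range (nn N T), sp N σ θ n T a j • S N σ θ L (nn N T) T' j :=
    (eventually_ge_atTop T).mono key
  have h4 := tendsto_nhds_unique (h1.congr' h3) h2
  apply Ψ.injective
  simpa only [map_sum, map_smul] using h4

end Pool.Agent.NE.H31
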